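import Pool.Agent.Q265.LC.L

/-! # Domination of the abc triples by the triples of a thin set -/

set_option autoImplicit false

open Finset Polynomial

namespace H159.TB

open Q265.LC
open Q241.AC (R)

/-- logarithmic height -/
noncomputable def hh (t : ℚ) : ℝ := Real.log (H t)

/-- the logarithm of height / radical -/
noncomputable def df (t : ℚ) : ℝ := Real.log (H t) - Real.log (Rd t)

lemma hh_nonneg (t : ℚ) : 0 ≤ hh t := Real.log_nonneg (one_le_H t)

/-- every element of `T` of large height is dominated by an element of `T0` -/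
def Dom (T0 T : Set ℚ) : Prop := ∃ D C : ℝ, 1 ≤ D ∧ 0 ≤ C ∧ ∀ t ∈ T, t ≠ 0 → t ≠ 1 →
  hh t ≤ C ∨ ∃ s ∈ T0, s ≠ 0 ∧ s ≠ 1 ∧ hh t ≤ hh s + C ∧ hh s ≤ D * hh t + C ∧ df t ≤ df s + C

lemma dom_self (T : Set ℚ) : Dom T T :=
  ⟨1, 0, le_rfl, le_rfl, fun t ht h0 h1 => Or.inr ⟨t, ht, h0, h1, by simp, by simp, by simp⟩⟩

theorem isTr_dom (T0 : Set ℚ) : IsTr (Dom T0) where
  mono := fun h hs => by
    obtain ⟨D, C, hD, hC, h⟩ := h
    exact ⟨D, C, hD, hC, fun t ht => h t (hs ht)⟩
  union := fun h h' => by
    obtain ⟨D, C, hD, hC, h⟩ := h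
    obtain ⟨D', C', hD', hC', h'⟩ := h'
    refine ⟨max D D', max C C', le_max_of_le_left hD, le_max_of_le_left hC, fun t ht h0 h1 => ?_⟩
    have c1 := le_max_left C C'
    have c2 := le_max_right C C'
    have d1 := mul_le_mul_of_nonneg_right (le_max_left D D') (hh_nonneg t)
    have d2 := mul_le_mul_of_nonneg_right (le_max_right D D') (hh_nonneg t)
    rcases ht with ht | ht
    · rcases h t ht h0 h1 with h2 | ⟨s, hs, s0, s1, a1, a2, a3⟩
      · exact Or.inl (h2.trans c1)
      · exact Or.inr ⟨s, hs, s0, s1, by linarith, by linarith, by linarith⟩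
    · rcases h' t ht h0 h1 with h2 | ⟨s, hs, s0, s1, a1, a2, a3⟩
      · exact Or.inl (h2.trans c2)
      · exact Or.inr ⟨s, hs, s0, s1, by linarith, by linarith, by linarith⟩
  fin := fun {T} h => by
    refine ⟨1, ∑ t ∈ h.toFinset, hh t, le_rfl, sum_nonneg fun t _ => hh_nonneg t,
      fun t ht _ _ => Or.inl ?_⟩
    exact single_le_sum (f := fun t => hh t) (fun s _ => hh_nonneg s) (h.mem_toFinset.2 ht)
  tr := by
    intro F G d hB T T' hT' h
    obtain ⟨D', C', hD', hC', hdom⟩ := hT'
    obtain ⟨C1, C2, hC1, hC2, C3, hC3, Δ, hΔ, Z, hZ, hv⟩ := values hB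
    have hd : (1 : ℝ) ≤ d := by exact_mod_cast hB.hd
    obtain ⟨M, hM⟩ : ∃ M : ℝ, M = ∑ t ∈ hZ.toFinset, hh t := ⟨_, rfl⟩
    have hM0 : 0 ≤ M := by rw [hM]; exact sum_nonneg fun t _ => hh_nonneg t
    have a1 := le_abs_self (Real.log C1)
    have a1' := abs_nonneg (Real.log C1)
    have a2 := le_abs_self (Real.log C2)
    have a2' := abs_nonneg (Real.log C2)
    have a3 := le_abs_self (Real.log C3)
    have a3' := abs_nonneg (Real.log C3)
    have a4 : 0 ≤ D' * |Real.log C3| := by positivity
    refine ⟨D' * d, M + C' + |Real.log C1| + |Real.log C2| + D' * |Real.log C3|, ?_, by positivity,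
      fun t ht ht0 ht1 => ?_⟩
    · nlinarith
    by_cases htZ : t ∈ Z
    · left
      have h1 : hh t ≤ M := by
        rw [hM]
        exact single_le_sum (f := fun t => hh t) (fun s _ => hh_nonneg s) (hZ.mem_toFinset.2 htZ)
      linarith
    obtain ⟨hG, hy0, hy1, hH, hR, hU, -⟩ := hv t htZ
    have h1 := hdom _ (h t ht hG) hy0 hy1
    obtain ⟨y, hy⟩ : ∃ y, y = F.eval t / G.eval t := ⟨_, rfl⟩
    rw [← hy] at h1 hH hR hU
    have hht := one_le_H t
    have hyy := one_le_H y
    have hr := one_le_Rd t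
    have hry := one_le_Rd y
    have k1 : d * hh t ≤ Real.log C1 + hh y := by
      unfold hh
      rw [← Real.log_mul hC1.ne' (by positivity), ← Real.log_pow]
      exact Real.log_le_log (by positivity) hH
    have k1' : hh y ≤ Real.log C3 + d * hh t := by
      unfold hh
      rw [← Real.log_pow, ← Real.log_mul hC3.ne' (by positivity)]
      exact Real.log_le_log (by positivity) hU
    have k2 : Real.log (Rd y) ≤ Real.log C2 + Real.log (Rd t) + (d - 1) * hh t := by
      have h2 := Real.log_le_log (by linarith) hR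
      have h3 : Real.log (C2 * Rd t * H t ^ (d - 1)) =
          Real.log C2 + Real.log (Rd t) + (d - 1 : ℕ) * Real.log (H t) := by
        rw [Real.log_mul (by positivity) (by positivity), Real.log_mul hC2.ne' (by positivity),
          Real.log_pow]
      rw [h3, Nat.cast_sub hB.hd, Nat.cast_one] at h2
      exact h2
    have k3 : df t ≤ df y + |Real.log C1| + |Real.log C2| := by
      have e1 : df t = hh t - Real.log (Rd t) := rfl
      have e2 : df y = hh y - Real.log (Rd y) := rfl
      rw [e1, e2]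
      nlinarith
    have k4 : hh t ≤ d * hh t := le_mul_of_one_le_left (hh_nonneg t) hd
    rcases h1 with h1 | ⟨s, hs, s0, s1, b1, b2, b3⟩
    · left
      linarith
    · right
      refine ⟨s, hs, s0, s1, by linarith, ?_, by linarith⟩
      have k5 : D' * hh y ≤ D' * (|Real.log C3| + d * hh t) :=
        mul_le_mul_of_nonneg_left (by linarith) (by linarith)
      have k6 : D' * (|Real.log C3| + d * hh t) = D' * |Real.log C3| + D' * d * hh t := by ring
      linarith

end H159.TB
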