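import Pool.Agent.H159.TB.Dom

/-! # Triples of integers and rational numbers -/

set_option autoImplicit false

open Finset Polynomial

namespace H159.TB

open Q265.LC
open Q241.AC (R)

/-- the largest absolute value of a member of a triple -/
def mx (a b c : ℤ) : ℤ := max |a| (max |b| |c|)

/-- coprime nonzero integers `a + b = c` -/
def Tr (a b c : ℤ) : Prop := a ≠ 0 ∧ b ≠ 0 ∧ c ≠ 0 ∧ IsCoprime a b ∧ a + b = c

/-- the logarithm of the largest absolute value -/
noncomputable def lh (a b c : ℤ) : ℝ := Real.log (mx a b c : ℝ)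

/-- the logarithm of the largest absolute value divided by the radical -/
noncomputable def lq (a b c : ℤ) : ℝ := Real.log ((mx a b c : ℝ) / (R (a * b * c).natAbs : ℝ))

lemma two_le_mx {a b c : ℤ} (h : Tr a b c) : 2 ≤ mx a b c := by
  obtain ⟨ha, hb, hc, -, habc⟩ := h
  unfold mx
  by_contra hlt
  have h1 : |a| ≤ max |a| (max |b| |c|) := le_max_left _ _
  have h2 : |b| ≤ max |a| (max |b| |c|) := (le_max_left _ _).trans (le_max_right _ _)
  have h3 : |c| ≤ max |a| (max |b| |c|) := (le_max_right _ _).trans (le_max_right _ _)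
  have h1' : |a| ≤ 1 := by omega
  have h2' : |b| ≤ 1 := by omega
  have h3' : |c| ≤ 1 := by omega
  rw [abs_le] at h1' h2' h3'
  omega

lemma lh_pos {a b c : ℤ} (h : Tr a b c) : Real.log 2 ≤ lh a b c := by
  have h1 : (2 : ℝ) ≤ (mx a b c : ℝ) := by exact_mod_cast two_le_mx h
  exact Real.log_le_log (by norm_num) h1

lemma lq_eq {a b c : ℤ} (h : Tr a b c) :
    lq a b c = lh a b c - Real.log (R (a * b * c).natAbs : ℝ) := by
  have h1 : (2 : ℝ) ≤ (mx a b c : ℝ) := by exact_mod_cast two_le_mx h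
  have h2 := R_natAbs (a * b * c)
  unfold lq lh
  rw [Real.log_div (by positivity) (by positivity)]

lemma to_rat {a b c : ℤ} (h : Tr a b c) : ∃ t : ℚ, t = (a : ℚ) / c ∧ t ≠ 0 ∧ t ≠ 1 ∧
    hh t ≤ lh a b c ∧ lh a b c ≤ hh t + Real.log 2 ∧
    df t ≤ lq a b c ∧ lq a b c ≤ df t + Real.log 2 := by
  have hh0 := h
  have h2m := two_le_mx h
  obtain ⟨ha, hb, hc, hab, habc⟩ := h
  obtain ⟨t, ht⟩ : ∃ t, t = (a : ℚ) / c := ⟨_, rfl⟩
  have hac : IsCoprime a c := by
    rw [← habc]
    exact (IsCoprime.add_mul_left_right_iff (z := 1)).2 hab |> fun h => by simpa [add_comm] using h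
  obtain ⟨n1, n2, n3⟩ := num_den hc hac
  rw [← ht] at n1 n2 n3
  have hcq : (c : ℚ) ≠ 0 := by exact_mod_cast hc
  have ht0 : t ≠ 0 := by
    rw [ht]
    exact div_ne_zero (by exact_mod_cast ha) hcq
  have ht1 : t ≠ 1 := by
    rw [ht]
    intro h1
    rw [div_eq_one_iff_eq hcq] at h1
    have : a = c := by exact_mod_cast h1
    omega
  have hR : Rd t = R (a * b * c).natAbs := by
    unfold Rd Tp
    rw [n3, n1, n2]
    congr 1
    rw [Int.natAbs_mul, Int.natAbs_mul]
    have : (a - c).natAbs = b.natAbs := by omega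
    rw [this]
    ring
  have hHa : ((|a| : ℤ) : ℝ) = |(t.num : ℝ)| := by
    have : |a| = |t.num| := by
      rw [Int.abs_eq_natAbs, Int.abs_eq_natAbs, n1]
    rw [this]
    push_cast
    rfl
  have hHc : ((|c| : ℤ) : ℝ) = (t.den : ℝ) := by
    rw [Int.abs_eq_natAbs, n2, Int.cast_natCast]
  have hHm : H t = ((max |a| |c| : ℤ) : ℝ) := by
    rw [Int.cast_max, hHa, hHc]
    rfl
  have i1 : max |a| |c| ≤ mx a b c :=
    max_le (le_max_left _ _) ((le_max_right _ _).trans (le_max_right _ _))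
  have hb' : |b| ≤ |c| + |a| := by
    have : b = c - a := by omega
    rw [this]
    exact abs_sub c a
  have i2 : mx a b c ≤ 2 * max |a| |c| := by
    have j1 := le_max_left |a| |c|
    have j2 := le_max_right |a| |c|
    have j3 := abs_nonneg a
    have j4 := abs_nonneg c
    exact max_le (by omega) (max_le (by omega) (by omega))
  have i1' : H t ≤ (mx a b c : ℝ) := by rw [hHm]; exact_mod_cast i1
  have i2' : (mx a b c : ℝ) ≤ 2 * H t := by rw [hHm]; exact_mod_cast i2
  have hH := one_le_H t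
  have m2 : (2 : ℝ) ≤ (mx a b c : ℝ) := by exact_mod_cast h2m
  have k1 : hh t ≤ lh a b c := Real.log_le_log (by linarith) i1'
  have k2 : lh a b c ≤ hh t + Real.log 2 := by
    have := Real.log_le_log (by linarith) i2'
    rw [Real.log_mul (by norm_num) (by linarith)] at this
    unfold lh hh
    linarith
  have e1 := lq_eq hh0
  rw [← hR] at e1
  have e2 : df t = hh t - Real.log (Rd t) := rfl
  refine ⟨t, ht, ht0, ht1, k1, k2, by rw [e1, e2]; linarith, by rw [e1, e2]; linarith⟩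

lemma from_rat {t : ℚ} (ht0 : t ≠ 0) (ht1 : t ≠ 1) : Tr t.num (t.den - t.num) t.den ∧
    ((t.num : ℤ) : ℚ) / ((t.den : ℤ) : ℚ) = t := by
  have hden : (t.den : ℤ) ≠ 0 := by exact_mod_cast t.pos.ne'
  have hnum : t.num ≠ 0 := Rat.num_ne_zero.2 ht0
  have hb : (t.den : ℤ) - t.num ≠ 0 := by
    intro h0
    apply ht1
    have : t.num = t.den := by omega
    rw [← Rat.num_div_den t, this]
    exact div_self (by exact_mod_cast t.pos.ne')
  have hcop : IsCoprime t.num ((t.den : ℤ) - t.num) := by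
    have h1 : IsCoprime t.num (t.den : ℤ) := Int.isCoprime_iff_gcd_eq_one.2 (by
      have := t.reduced
      rwa [Int.gcd, Int.natAbs_natCast])
    have h2 : (t.den : ℤ) - t.num = t.den + t.num * (-1) := by ring
    rw [h2]
    exact (IsCoprime.add_mul_left_right_iff).2 h1
  exact ⟨⟨hnum, hb, hden, hcop, by ring⟩, by exact_mod_cast Rat.num_div_den t⟩

/-- domination for triples of integers -/
theorem dom_trip {T0 T : Set ℚ} (h : Dom T0 T) : ∃ D C : ℝ, 1 ≤ D ∧ 0 ≤ C ∧ ∀ a b c : ℤ,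
    Tr a b c → (a : ℚ) / c ∈ T → C < lh a b c → ∃ a' b' c' : ℤ, Tr a' b' c' ∧
      (a' : ℚ) / c' ∈ T0 ∧ lh a b c ≤ lh a' b' c' + C ∧ lh a' b' c' ≤ D * lh a b c + C ∧
      lq a b c ≤ lq a' b' c' + C := by
  obtain ⟨D, C, hD, hC, hdom⟩ := h
  have hl2 : 0 < Real.log 2 := Real.log_pos one_lt_two
  refine ⟨D, C + 2 * Real.log 2, hD, by linarith, fun a b c habc hT hC' => ?_⟩
  obtain ⟨t, ht, ht0, ht1, k1, k2, k3, k4⟩ := to_rat habc
  rw [← ht] at hT
  rcases hdom t hT ht0 ht1 with h1 | ⟨s, hs, s0, s1, b1, b2, b3⟩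
  · linarith
  obtain ⟨g1, g2⟩ := from_rat s0 s1
  obtain ⟨s', hs', -, -, l1, l2, l3, l4⟩ := to_rat g1
  rw [g2] at hs'
  subst hs'
  refine ⟨s'.num, s'.den - s'.num, s'.den, g1, by rw [g2]; exact hs, by linarith, ?_, by linarith⟩
  have : D * hh t ≤ D * lh a b c := mul_le_mul_of_nonneg_left k1 (by linarith)
  linarith

end H159.TB
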